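import Mathlib

set_option autoImplicit false

namespace Pool.Agent.Lib.MP_671173_al

/-- `g` lies in `UU₄(F)`: it is upper triangular with every diagonal entry equal to `1`. -/
def IsUU4 {F : Type} [Field F] (g : Matrix (Fin 4) (Fin 4) F) : Prop :=
  (∀ i j, j < i → g i j = 0) ∧ ∀ i, g i i = 1

/-- `ω(UU₄(F))`: the largest size of a set of pairwise non-commuting elements of `UU₄(F)`. -/
noncomputable def omegaUU4 (F : Type) [Field F] : ℕ :=
  sSup {n : ℕ | ∃ X : Finset (Matrix (Fin 4) (Fin 4) F), (∀ g ∈ X, IsUU4 g) ∧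
    (∀ x ∈ X, ∀ y ∈ X, x ≠ y → x * y ≠ y * x) ∧ X.card = n}

end Pool.Agent.Lib.MP_671173_al
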