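import Pool.Agent.Lib.MP_671173_al.Main

/-! The exact value for even `q`, and a sharper bound for odd `q`. -/

namespace Pool.Agent.Lib.MP_671173_al

open Finset

section Ovoid

variable {F V : Type} [Field F] [Fintype F] [DecidableEq F] [AddCommGroup V] [Module F V]
  [Fintype V] [DecidableEq V] (B : V →ₗ[F] V →ₗ[F] F)

theorem no_three' (hdim : Module.finrank F V = 4) (halt : ∀ x, B x x = 0)
    (hnd : ∀ u, u ≠ 0 → B u ≠ 0) (O : Finset V) (hO : ∀ x ∈ O, ∀ y ∈ O, x ≠ y → B x y ≠ 0)
    (hcard : Fintype.card F ^ 2 + 2 ≤ #O + Fintype.card F) {x1 x2 x3 : V} (h1 : x1 ∈ O) (h2 : x2 ∈ O) (h3 : x3 ∈ O)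
    (h12 : x1 ≠ x2) (h31 : x3 ≠ x1) (h32 : x3 ≠ x2) (α β : F) (h : x3 = α • x1 + β • x2) :
    False := by
  have hα : α ≠ 0 := by
    intro h0
    apply hO x3 h3 x2 h2 h32
    rw [h]; simp [h0, halt]
  have hβ : β ≠ 0 := by
    intro h0
    apply hO x3 h3 x1 h1 h31
    rw [h]; simp [h0, halt]
  set S := ((O.erase x1).erase x2).erase x3 with hS
  have hmem : ∀ y ∈ S, y ∈ O ∧ y ≠ x1 ∧ y ≠ x2 ∧ y ≠ x3 := by
    intro y hy
    simp only [hS, Finset.mem_erase] at hy
    tauto
  have hSO : S ⊆ O := fun y hy => (hmem y hy).1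
  have hS2 : ∀ y ∈ S, B x2 y ≠ 0 := fun y hy => hO x2 h2 y (hmem y hy).1 (hmem y hy).2.2.1.symm
  have hle := Finset.card_le_mul_card_image_of_maps_to (s := S)
    (t := ((univ : Finset F).erase 0).erase (-β / α)) (f := fun y => B x1 y / B x2 y)
    (by
      intro y hy
      obtain ⟨a1, a2, a3, a4⟩ := hmem y hy
      have b1 := hO x1 h1 y a1 a2.symm
      have b2 := hO x2 h2 y a1 a3.symm
      have b3 := hO x3 h3 y a1 a4.symm
      simp only [Finset.mem_erase, Finset.mem_univ, and_true]
      refine ⟨fun h0 => b3 ?_, div_ne_zero b1 b2⟩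
      rw [div_eq_div_iff b2 hα] at h0
      rw [h]
      simp only [map_add, map_smul, LinearMap.add_apply, LinearMap.smul_apply, smul_eq_mul]
      linear_combination h0)
    (Fintype.card F + 1)
    (fun r _ => (Finset.card_le_card (fiber_subset B S O hSO x1 x2 hS2 r)).trans
      (card_plane_le B hdim halt hnd O hO (sub_smul_ne_zero B halt (hO x1 h1 x2 h2 h12) r)))
  have hne : -β / α ≠ 0 := div_ne_zero (neg_ne_zero.mpr hβ) hα
  rw [Finset.card_erase_of_mem (a := -β / α) (by simp [hβ, hα]),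
    Finset.card_erase_of_mem (Finset.mem_univ (0 : F)), Finset.card_univ] at hle
  have hScard : #O ≤ #S + 3 := by
    have a1 := Finset.pred_card_le_card_erase (s := O) (a := x1)
    have a2 := Finset.pred_card_le_card_erase (s := O.erase x1) (a := x2)
    have a3 := Finset.pred_card_le_card_erase (s := (O.erase x1).erase x2) (a := x3)
    rw [← hS] at a3
    omega
  have hq : 2 ≤ Fintype.card F := Fintype.one_lt_card
  obtain ⟨m, hm⟩ : ∃ m, Fintype.card F = m + 2 := ⟨Fintype.card F - 2, by omega⟩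
  rw [hm] at hle hcard
  simp only [show m + 2 - 1 - 1 = m by omega] at hle
  nlinarith

theorem plane_le_odd (hdim : Module.finrank F V = 4) (halt : ∀ x, B x x = 0)
    (hnd : ∀ u, u ≠ 0 → B u ≠ 0) (O : Finset V) (hO : ∀ x ∈ O, ∀ y ∈ O, x ≠ y → B x y ≠ 0)
    (hodd : Odd (Fintype.card F)) (hcard : Fintype.card F ^ 2 + 2 ≤ #O + Fintype.card F)
    {u : V} (hu : u ≠ 0) : #(O.filter fun v => B u v = 0) ≤ Fintype.card F := by
  by_contra! hbig
  have hsmall := card_plane_le B hdim halt hnd O hO hu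
  set K := O.filter fun v => B u v = 0 with hK
  obtain ⟨x0, hx0⟩ : K.Nonempty := Finset.card_pos.mp (by omega)
  have hx0' := Finset.mem_filter.mp hx0
  have hx0u : B x0 u = 0 := by rw [skew B halt, hx0'.2, neg_zero]
  set S := K.erase x0 with hS
  have hScard : #S = Fintype.card F := by
    rw [hS, Finset.card_erase_of_mem hx0]; omega
  have hmem : ∀ y ∈ S, y ∈ O ∧ B u y = 0 ∧ y ≠ x0 := by
    intro y hy
    have := Finset.mem_filter.mp (Finset.mem_of_mem_erase hy)
    exact ⟨this.1, this.2, Finset.ne_of_mem_erase hy⟩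
  -- existence of a partner
  have hex : ∀ x ∈ S, ∃ y ∈ S, y ≠ x ∧ ∃ a b : F, x0 + u = a • x + b • y := by
    intro x hx
    obtain ⟨m1, m2, m3⟩ := hmem x hx
    have hxK : x ∈ K := Finset.mem_of_mem_erase hx
    have hxx := hO x m1 x0 hx0'.1 m3
    have hxu : B x u = 0 := by rw [skew B halt, m2, neg_zero]
    choose! a b c habc using coords B hdim halt hnd hu m2 hx0'.2 hxx
    have hb : ∀ y ∈ K.erase x, b y ≠ 0 := by
      intro y hy hb0
      have hy' := Finset.mem_filter.mp (Finset.mem_of_mem_erase hy)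
      apply hO x m1 y hy'.1 (Finset.ne_of_mem_erase hy).symm
      rw [habc y hy'.2]
      simp [halt, hxu, hb0]
    have key := Finset.surj_on_of_inj_on_of_card_le (s := K.erase x) (t := (univ : Finset F))
      (fun y _ => c y / b y) (by intro y _; simp)
      (by
        intro y y' hy hy' h
        by_contra hyy
        have hy1 := Finset.mem_filter.mp (Finset.mem_of_mem_erase hy)
        have hy2 := Finset.mem_filter.mp (Finset.mem_of_mem_erase hy')
        have b1 := hb y hy
        have b2 := hb y' hy'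
        have h' : c y * b y' = c y' * b y := (div_eq_div_iff b1 b2).mp h
        refine no_three' B hdim halt hnd O hO hcard m1 hy2.1 hy1.1
          (Finset.ne_of_mem_erase hy').symm (Finset.ne_of_mem_erase hy) hyy
          (a y - b y / b y' * a y') (b y / b y') ?_
        have e1 := habc y hy1.2
        have e2 := habc y' hy2.2
        have e3 : c y = b y / b y' * c y' := by field_simp; linear_combination h'
        have e4 : b y = b y / b y' * b y' := by field_simp
        generalize b y / b y' = t at e3 e4 ⊢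
        linear_combination (norm := module) e1 - t • e2 + e4 • x0 + e3 • u)
      (by rw [Finset.card_erase_of_mem hxK, Finset.card_univ]; omega)
      1 (Finset.mem_univ _)
    obtain ⟨y, hy, hy1⟩ := key
    have b1 := hb y hy
    have hyK := Finset.mem_filter.mp (Finset.mem_of_mem_erase hy)
    have hcb : c y = b y := by
      field_simp at hy1
      exact hy1.symm
    have e1 := habc y hyK.2
    refine ⟨y, Finset.mem_erase.mpr ⟨?_, Finset.mem_of_mem_erase hy⟩, Finset.ne_of_mem_erase hy,
      -(a y / b y), (b y)⁻¹, ?_⟩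
    · rintro rfl
      have h1 := congrArg (B x) e1
      have h2 := congrArg (B y) e1
      simp only [map_add, map_smul, halt, hxu, hx0u, smul_eq_mul, mul_zero, zero_add,
        add_zero] at h1 h2
      have hb1 : b y = 1 := by
        have := mul_right_cancel₀ hxx (h1.symm.trans (one_mul _).symm)
        exact this
      have ha0 : a y = 0 := by
        rcases mul_eq_zero.mp h2.symm with h | h
        · exact h
        · exact absurd h (by rw [skew B halt]; exact neg_ne_zero.mpr hxx)
      rw [hcb, hb1, ha0] at e1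
      simp only [zero_smul, one_smul, zero_add] at e1
      exact hu (left_eq_add.mp e1)
    · have e5 : (b y)⁻¹ • y = (b y)⁻¹ • (a y • x + b y • x0 + b y • u) := by
        rw [hcb] at e1
        exact congrArg _ e1
      rw [e5]
      match_scalars <;> field_simp
      ring
  -- uniqueness of the partner
  have huniq : ∀ x ∈ S, ∀ y ∈ S, ∀ y' ∈ S, y ≠ x → y' ≠ x →
      (∃ a b : F, x0 + u = a • x + b • y) → (∃ a b : F, x0 + u = a • x + b • y') → y = y' := by
    rintro x hx y hy y' hy' h1 h2 ⟨a, b, e1⟩ ⟨a', b', e2⟩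
    by_contra hyy
    obtain ⟨m1, m2, m3⟩ := hmem x hx
    have hb : b ≠ 0 := by
      rintro rfl
      have h3 := congrArg (B x) e1
      have hxu : B x u = 0 := by rw [skew B halt, m2, neg_zero]
      simp only [map_add, map_smul, halt, hxu, smul_eq_mul, mul_zero, zero_mul, add_zero] at h3
      exact hO x m1 x0 hx0'.1 m3 h3
    refine no_three' B hdim halt hnd O hO hcard m1 (hmem y' hy').1 (hmem y hy).1 h2.symm h1 hyy
      ((a' - a) / b) (b' / b) ?_
    have e3 : b • y = (a' - a) • x + b' • y' := by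
      rw [sub_smul, ← sub_eq_zero]
      have := e1.symm.trans e2
      rw [← sub_eq_zero] at this
      rw [← this]; abel
    have e4 : y = b⁻¹ • (b • y) := by rw [smul_smul, inv_mul_cancel₀ hb, one_smul]
    rw [e4, e3]
    match_scalars <;> field_simp
  choose g hg using hex
  have hsum : ∑ _x ∈ S, (1 : ZMod 2) = 0 := by
    refine Finset.sum_involution g (fun _ _ => by decide) (fun a ha _ => (hg a ha).2.1)
      (fun a ha => (hg a ha).1) ?_
    intro a ha
    obtain ⟨g1, g2, s, t, g3⟩ := hg a ha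
    obtain ⟨k1, k2, k3⟩ := hg (g a ha) g1
    exact huniq (g a ha) g1 _ k1 a ha k2 g2.symm k3 ⟨t, s, by rw [g3, add_comm]⟩
  rw [Finset.sum_const, hScard, nsmul_eq_mul, mul_one, ZMod.natCast_eq_zero_iff_even] at hsum
  exact (Nat.not_even_iff_odd.mpr hodd) hsum

theorem card_le_odd (hdim : Module.finrank F V = 4) (halt : ∀ x, B x x = 0)
    (hnd : ∀ u, u ≠ 0 → B u ≠ 0) (O : Finset V) (hO : ∀ x ∈ O, ∀ y ∈ O, x ≠ y → B x y ≠ 0)
    (hodd : Odd (Fintype.card F)) : #O + Fintype.card F ≤ Fintype.card F ^ 2 + 1 := by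
  by_contra! hcard
  have hpl := fun (u : V) (hu : u ≠ 0) => plane_le_odd B hdim halt hnd O hO hodd hcard hu
  have hq : 2 ≤ Fintype.card F := Fintype.one_lt_card
  have h1 : 1 < #O := by nlinarith
  obtain ⟨x1, h1, x2, h2, h12⟩ := Finset.one_lt_card.mp h1
  obtain ⟨p1, p2, a1, a2, b1, b2, hp2, hp⟩ : ∃ p1 p2 : V, B x1 p1 = 0 ∧ B x2 p1 = 0 ∧
      B x1 p2 = 0 ∧ B x2 p2 = 0 ∧ p2 ≠ 0 ∧ ∀ r : F, p1 - r • p2 ≠ 0 := by
    have e1 := LinearMap.finrank_range_add_finrank_ker ((B x1).prod (B x2))
    have e2 : Module.finrank F (LinearMap.range ((B x1).prod (B x2))) ≤ 2 :=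
      (Submodule.finrank_le _).trans (by simp)
    have e3 : ¬ Module.finrank F (LinearMap.ker ((B x1).prod (B x2))) ≤ 1 := by omega
    have e4 : 0 < Module.finrank F (LinearMap.ker ((B x1).prod (B x2))) := by omega
    obtain ⟨w2, hw2⟩ := Module.finrank_pos_iff_exists_ne_zero.1 e4
    have e5 : ¬ ∀ w : LinearMap.ker ((B x1).prod (B x2)), ∃ c : F, c • w2 = w :=
      fun h => e3 (finrank_le_one w2 h)
    push Not at e5
    obtain ⟨w1, hw1⟩ := e5
    have k1 := LinearMap.mem_ker.1 w1.2
    have k2 := LinearMap.mem_ker.1 w2.2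
    simp only [LinearMap.prod_apply, Function.prod_apply, Prod.mk_eq_zero] at k1 k2
    refine ⟨w1, w2, k1.1, k1.2, k2.1, k2.2, fun h => hw2 (Subtype.ext h), fun r h => ?_⟩
    exact hw1 r (Subtype.ext (sub_eq_zero.1 h).symm)
  set S := (O.erase x1).erase x2 with hS
  have hfib : ∀ u : V, u ≠ 0 → B x1 u = 0 → B x2 u = 0 →
      #(S.filter fun v => B u v = 0) + 2 ≤ Fintype.card F := by
    intro u hu c1 c2
    have m1 : x1 ∈ O.filter fun v => B u v = 0 :=
      Finset.mem_filter.2 ⟨h1, by rw [skew B halt, c1, neg_zero]⟩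
    have m2 : x2 ∈ (O.filter fun v => B u v = 0).erase x1 :=
      Finset.mem_erase.2 ⟨h12.symm, Finset.mem_filter.2 ⟨h2, by rw [skew B halt, c2, neg_zero]⟩⟩
    have e : S.filter (fun v => B u v = 0) = ((O.filter fun v => B u v = 0).erase x1).erase x2 := by
      ext v
      simp only [hS, Finset.mem_filter, Finset.mem_erase]
      tauto
    have c3 := Finset.card_erase_add_one m1
    have c4 := Finset.card_erase_add_one m2
    have := hpl u hu
    rw [e]
    omega
  have hsplit := Finset.card_filter_add_card_filter_not (s := S) (fun v => B p2 v = 0)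
  have hA := hfib p2 hp2 b1 b2
  have hle := Finset.card_le_mul_card_image_of_maps_to (s := S.filter fun v => ¬ B p2 v = 0)
    (t := (univ : Finset F)) (f := fun y => B p1 y / B p2 y) (fun _ _ => Finset.mem_univ _)
    (Fintype.card F - 2) (fun r _ => by
      have c1 := Finset.card_le_card (fiber_subset B (S.filter fun v => ¬ B p2 v = 0) S
        (Finset.filter_subset _ _) p1 p2 (fun y hy => (Finset.mem_filter.1 hy).2) r)
      have c2 := hfib _ (hp r) (by simp [a1, b1]) (by simp [a2, b2])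
      omega)
  rw [Finset.card_univ] at hle
  have hScard : #O ≤ #S + 2 := by
    have a1 := Finset.pred_card_le_card_erase (s := O) (a := x1)
    have a2 := Finset.pred_card_le_card_erase (s := O.erase x1) (a := x2)
    rw [← hS] at a2
    omega
  obtain ⟨m, hm⟩ : ∃ m, Fintype.card F = m + 2 := ⟨Fintype.card F - 2, by omega⟩
  rw [hm] at hle hcard hA
  simp only [Nat.add_sub_cancel] at hle
  nlinarith

/-- pairwise non-orthogonal vectors that miss an isotropic line -/
theorem card_le_off (hdim : Module.finrank F V = 4) (halt : ∀ x, B x x = 0)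
    (hnd : ∀ u, u ≠ 0 → B u ≠ 0) (O : Finset V) (hO : ∀ x ∈ O, ∀ y ∈ O, x ≠ y → B x y ≠ 0)
    {x p p' : V} (hx : x ∈ O) (hp : ∀ r : F, p - r • x ≠ 0) (h1 : B p x = 0) (h2 : B p p' = 0)
    (h3 : ∀ y ∈ O, B p y = 0 → B p' y ≠ 0) : #O ≤ Fintype.card F ^ 2 := by
  have hp0 : p ≠ 0 := by simpa using hp 0
  set S := O.erase x with hS
  have hSx : ∀ y ∈ S, B x y ≠ 0 := fun y hy =>
    hO x hx y (Finset.mem_of_mem_erase hy) (Finset.ne_of_mem_erase hy).symm
  have hfib : ∀ u : V, B u x = 0 →
      #(S.filter fun v => B u v = 0) + 1 = #(O.filter fun v => B u v = 0) := by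
    intro u hu
    rw [← Finset.card_erase_add_one (s := O.filter fun v => B u v = 0)
      (Finset.mem_filter.2 ⟨hx, hu⟩)]
    congr 2
    ext v
    simp only [hS, Finset.mem_filter, Finset.mem_erase]
    tauto
  have hA : #(O.filter fun v => B p v = 0) ≤ Fintype.card F := by
    have hn : p' ∉ O.filter fun v => B p v = 0 := fun h =>
      h3 p' (Finset.mem_filter.1 h).1 h2 (halt p')
    have c1 := card_plane_le B hdim halt hnd (insert p' (O.filter fun v => B p v = 0)) (by
      intro a ha b hb hab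
      rcases Finset.mem_insert.1 ha with ha' | ha' <;> rcases Finset.mem_insert.1 hb with hb' | hb'
      · exact absurd (ha'.trans hb'.symm) hab
      · rw [ha']
        exact h3 b (Finset.mem_filter.1 hb').1 (Finset.mem_filter.1 hb').2
      · rw [skew B halt, hb']
        exact neg_ne_zero.2 (h3 a (Finset.mem_filter.1 ha').1 (Finset.mem_filter.1 ha').2)
      · exact hO a (Finset.mem_filter.1 ha').1 b (Finset.mem_filter.1 hb').1 hab) hp0
    rw [Finset.filter_true_of_mem, Finset.card_insert_of_notMem hn] at c1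
    · omega
    · intro a ha
      rcases Finset.mem_insert.1 ha with rfl | ha
      · exact h2
      · exact (Finset.mem_filter.1 ha).2
  have hsplit := Finset.card_filter_add_card_filter_not (s := S) (fun v => B p v = 0)
  have hA' := hfib p h1
  have hle := Finset.card_le_mul_card_image_of_maps_to (s := S.filter fun v => ¬ B p v = 0)
    (t := (univ : Finset F).erase 0) (f := fun y => B p y / B x y)
    (fun y hy => Finset.mem_erase.2 ⟨div_ne_zero (Finset.mem_filter.1 hy).2
      (hSx y (Finset.mem_filter.1 hy).1), Finset.mem_univ _⟩)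
    (Fintype.card F) (fun r _ => by
      have c1 := Finset.card_le_card (fiber_subset B (S.filter fun v => ¬ B p v = 0) S
        (Finset.filter_subset _ _) p x (fun y hy => hSx y (Finset.mem_filter.1 hy).1) r)
      have c2 := hfib (p - r • x) (by simp [h1, halt])
      have c3 := card_plane_le B hdim halt hnd O hO (hp r)
      omega)
  rw [Finset.card_erase_of_mem (Finset.mem_univ (0 : F)), Finset.card_univ] at hle
  have c5 := Finset.card_erase_add_one hx
  rw [← hS] at c5
  obtain ⟨m, hm⟩ : ∃ m, Fintype.card F = m + 1 :=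
    ⟨Fintype.card F - 1, by have : 0 < Fintype.card F := Fintype.card_pos; omega⟩
  rw [hm] at hle hA ⊢
  simp only [Nat.add_sub_cancel] at hle
  nlinarith

end Ovoid

variable {F : Type} [Field F] [Fintype F]

/-- reduction of the upper bound to non-orthogonal vectors missing the line `a = c = 0` -/
theorem upper_gen (N : ℕ) (hN : ∀ O : Finset (F × F × F × F),
      (∀ x ∈ O, ∀ y ∈ O, x ≠ y → symp x y ≠ 0) → (∀ x ∈ O, ¬ (x.1 = 0 ∧ x.2.1 = 0)) → #O ≤ N) :
    omegaUU4 F + Fintype.card F ≤ Fintype.card F ^ 3 + N + 1 := by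
  classical
  have hne : {n : ℕ | ∃ X : Finset (Matrix (Fin 4) (Fin 4) F), (∀ g ∈ X, IsUU4 g) ∧
      (∀ x ∈ X, ∀ y ∈ X, x ≠ y → x * y ≠ y * x) ∧ X.card = n}.Nonempty := ⟨0, ∅, by simp⟩
  have hbdd : BddAbove {n : ℕ | ∃ X : Finset (Matrix (Fin 4) (Fin 4) F), (∀ g ∈ X, IsUU4 g) ∧
      (∀ x ∈ X, ∀ y ∈ X, x ≠ y → x * y ≠ y * x) ∧ X.card = n} :=
    ⟨Fintype.card (Matrix (Fin 4) (Fin 4) F), by rintro n ⟨X, _, _, rfl⟩; exact X.card_le_univ⟩
  obtain ⟨X, hX, hnc, h3⟩ := Nat.sSup_mem hne hbdd
  rw [omegaUU4, ← h3]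
  have hsplit := Finset.card_filter_add_card_filter_not (s := X)
    (fun g => g 1 2 = 0 ∧ ¬ (g 0 1 = 0 ∧ g 2 3 = 0))
  have h1 : #(X.filter fun g => ¬ (g 1 2 = 0 ∧ ¬ (g 0 1 = 0 ∧ g 2 3 = 0))) ≤ #(idx F) := by
    refine Finset.card_le_card_of_injOn (fun g => (g 0 1 / g 1 2, g 2 3 / g 1 2,
      (g 0 1 * g 1 3 - g 2 3 * g 0 2) / (g 1 2) ^ 2)) ?_ ?_
    · intro g _
      simp only [Finset.mem_coe, mem_idx]
      intro ha hc
      by_cases hb : g 1 2 = 0
      · simp [hb]
      · rw [div_eq_zero_iff] at ha hc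
        simp [ha.resolve_right hb, hc.resolve_right hb]
    · intro x hx y hy h
      obtain ⟨hx1, hx2⟩ := Finset.mem_filter.mp hx
      obtain ⟨hy1, hy2⟩ := Finset.mem_filter.mp hy
      by_contra hne
      apply hnc x hx1 y hy1 hne
      simp only [Prod.mk.injEq] at h
      obtain ⟨e1, e2, e3⟩ := h
      rw [comm_iff (hX x hx1) (hX y hy1)]
      by_cases hx0 : x 1 2 = 0
      · have c1 : x 0 1 = 0 ∧ x 2 3 = 0 := by tauto
        have c2 : y 0 1 = 0 ∧ y 2 3 = 0 := by
          by_cases hy0 : y 1 2 = 0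
          · tauto
          · rw [hx0, div_zero, eq_comm, div_eq_zero_iff] at e1 e2
            exact ⟨e1.resolve_right hy0, e2.resolve_right hy0⟩
        simp [c1.1, c1.2, c2.1, c2.2]
      by_cases hy0 : y 1 2 = 0
      · have c2 : y 0 1 = 0 ∧ y 2 3 = 0 := by tauto
        rw [hy0, div_zero, div_eq_zero_iff] at e1 e2
        simp [e1.resolve_right hx0, e2.resolve_right hx0, c2.1, c2.2]
      rw [div_eq_div_iff hx0 hy0] at e1 e2
      rw [div_eq_div_iff (pow_ne_zero 2 hx0) (pow_ne_zero 2 hy0)] at e3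
      refine ⟨e1, by linear_combination -e2, ?_⟩
      apply mul_left_cancel₀ (mul_ne_zero hx0 hy0)
      linear_combination (x 1 2 * y 1 3 + y 1 2 * x 1 3) * e1
        - (x 1 2 * y 0 2 + y 1 2 * x 0 2) * e2 - e3
  have h2 : #(X.filter fun g => g 1 2 = 0 ∧ ¬ (g 0 1 = 0 ∧ g 2 3 = 0)) ≤ N := by
    set Y := X.filter fun g => g 1 2 = 0 ∧ ¬ (g 0 1 = 0 ∧ g 2 3 = 0) with hY
    have hB : ∀ x ∈ Y, ∀ y ∈ Y, x ≠ y →
        symp (x 0 1, x 2 3, x 0 2, x 1 3) (y 0 1, y 2 3, y 0 2, y 1 3) ≠ 0 := by
      intro x hx y hy hne h0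
      obtain ⟨hx1, hx2, -⟩ := Finset.mem_filter.mp hx
      obtain ⟨hy1, hy2, -⟩ := Finset.mem_filter.mp hy
      apply hnc x hx1 y hy1 hne
      rw [comm_iff (hX x hx1) (hX y hy1)]
      rw [symp_apply] at h0
      refine ⟨by simp [hx2, hy2], by simp [hx2, hy2], by linear_combination h0⟩
    have halt : ∀ x : F × F × F × F, symp x x = 0 := by
      intro x; rw [symp_apply]; ring
    rw [← Finset.card_image_of_injOn (f := fun x : Matrix (Fin 4) (Fin 4) F =>
      (x 0 1, x 2 3, x 0 2, x 1 3))]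
    · refine hN _ ?_ ?_
      · intro v hv w hw hvw
        obtain ⟨x, hx, rfl⟩ := Finset.mem_image.mp hv
        obtain ⟨y, hy, rfl⟩ := Finset.mem_image.mp hw
        exact hB x hx y hy (fun h => hvw (by rw [h]))
      · intro v hv
        obtain ⟨x, hx, rfl⟩ := Finset.mem_image.mp hv
        exact (Finset.mem_filter.mp hx).2.2
    · intro x hx y hy h
      by_contra hne
      apply hB x hx y hy hne
      simp only at h
      rw [h, halt]
  have h3 := card_idx (F := F)
  omega

theorem omega_le : omegaUU4 F + Fintype.card F ≤ Fintype.card F ^ 3 + Fintype.card F ^ 2 + 1 := by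
  classical
  refine upper_gen _ fun O hO hL => ?_
  rcases O.eq_empty_or_nonempty with rfl | ⟨⟨a, c, d, e⟩, hx⟩
  · simp
  have halt : ∀ x : F × F × F × F, symp x x = 0 := by
    intro x; rw [symp_apply]; ring
  have hac : ¬ (a = 0 ∧ c = 0) := hL _ hx
  have hp : ∀ r : F, ((0, 0, a, c) : F × F × F × F) - r • (a, c, d, e) ≠ 0 := by
    intro r h
    simp only [Prod.smul_mk, smul_eq_mul, Prod.mk_sub_mk, Prod.mk_eq_zero, zero_sub,
      neg_eq_zero, mul_eq_zero] at h
    obtain ⟨k1, k2, k3, k4⟩ := h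
    have hr : r = 0 := by tauto
    rw [hr, zero_mul, sub_zero] at k3 k4
    exact hac ⟨k3, k4⟩
  by_cases ha : a = 0
  · have hc : c ≠ 0 := fun h => hac ⟨ha, h⟩
    refine card_le_off symp (by simp) halt symp_nd O hO hx hp (p' := (0, 0, 1, 0))
      (by rw [symp_apply]; ring) (by rw [symp_apply]; ring) fun y hy k1 k2 => hL y hy ?_
    rw [symp_apply] at k1 k2
    simp only [ha] at k1 k2
    refine ⟨mul_left_cancel₀ hc ?_, by linear_combination k2⟩
    linear_combination -k1
  · refine card_le_off symp (by simp) halt symp_nd O hO hx hp (p' := (0, 0, 0, 1))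
      (by rw [symp_apply]; ring) (by rw [symp_apply]; ring) fun y hy k1 k2 => hL y hy ?_
    rw [symp_apply] at k1 k2
    simp only at k1 k2
    have k3 : y.1 = 0 := by linear_combination -k2
    refine ⟨k3, mul_left_cancel₀ ha ?_⟩
    linear_combination k1 + c * k3

theorem omega_even (h : Even (Fintype.card F)) :
    omegaUU4 F + Fintype.card F = Fintype.card F ^ 3 + Fintype.card F ^ 2 + 1 := by
  refine le_antisymm omega_le (omega_lower ?_)
  have h1 : ringChar F = 2 := by
    by_contra h2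
    have := FiniteField.odd_card_of_char_ne_two h2
    obtain ⟨k, hk⟩ := h
    omega
  have := ringChar.Nat.cast_ringChar (R := F)
  rw [h1] at this
  exact_mod_cast this

theorem omega_odd (h : Odd (Fintype.card F)) :
    omegaUU4 F + 2 * Fintype.card F ≤ Fintype.card F ^ 3 + Fintype.card F ^ 2 + 2 := by
  classical
  have halt : ∀ x : F × F × F × F, symp x x = 0 := by
    intro x; rw [symp_apply]; ring
  have h1 := upper_gen (F := F) (Fintype.card F ^ 2 + 1 - Fintype.card F) fun O hO _ => by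
    have := card_le_odd symp (by simp) halt symp_nd O hO h
    omega
  have h2 : Fintype.card F ≤ Fintype.card F ^ 2 := Nat.le_self_pow (by norm_num) _
  omega

end Pool.Agent.Lib.MP_671173_al
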