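import Mathlib

set_option autoImplicit false

/-! Partial ovoids of the symplectic quadrangle `W(3,q)` have fewer than `q^2` points when `q` is
odd. -/

namespace Pool.Agent.Lib.MP_671173_al

open Finset

section Ovoid

variable {F V : Type} [Field F] [Fintype F] [DecidableEq F] [AddCommGroup V] [Module F V]
  [Fintype V] [DecidableEq V] (B : V →ₗ[F] V →ₗ[F] F)

omit [DecidableEq V] in
theorem card_perp (hdim : Module.finrank F V = 4) {u : V} (hu : B u ≠ 0) :
    #(univ.filter fun v => B u v = 0) = Fintype.card F ^ 3 := by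
  classical
  have h1 := Module.Dual.finrank_ker_add_one_of_ne_zero hu
  have h2 : Module.finrank F (LinearMap.ker (B u)) = 3 := by omega
  have h3 := Module.card_eq_pow_finrank (K := F) (V := LinearMap.ker (B u))
  rw [h2] at h3
  rw [← h3, Fintype.card_subtype]
  congr 1
  ext v
  simp

omit [Fintype F] [DecidableEq F] [Fintype V] [DecidableEq V] in
theorem skew (halt : ∀ x, B x x = 0) (x y : V) : B y x = - B x y := by
  have := halt (x + y)
  simp only [map_add, LinearMap.add_apply, halt] at this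
  linear_combination this

omit [DecidableEq V] in
theorem coords (hdim : Module.finrank F V = 4) (halt : ∀ x, B x x = 0)
    (hnd : ∀ u, u ≠ 0 → B u ≠ 0) {u x x0 : V} (hu : u ≠ 0) (hx : B u x = 0) (hx0 : B u x0 = 0)
    (hxx : B x x0 ≠ 0) (v : V) (hv : B u v = 0) :
    ∃ a b c : F, v = a • x + b • x0 + c • u := by
  have hxu : B x u = 0 := by rw [skew B halt, hx, neg_zero]
  have hx0u : B x0 u = 0 := by rw [skew B halt, hx0, neg_zero]
  have hxx' : B x0 x ≠ 0 := by rw [skew B halt]; exact neg_ne_zero.mpr hxx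
  have key := Finset.surj_on_of_inj_on_of_card_le (s := (univ : Finset (F × F × F)))
    (t := univ.filter fun v => B u v = 0)
    (fun p _ => p.1 • x + p.2.1 • x0 + p.2.2 • u)
    (by intro p _; simp [hx, hx0, halt])
    (by
      rintro ⟨a, b, c⟩ ⟨a', b', c'⟩ _ _ h
      simp only at h
      have h1 := congrArg (B x) h
      have h2 := congrArg (B x0) h
      simp only [map_add, map_smul, halt, hxu, hx0u, smul_eq_mul, mul_zero, zero_add,
        add_zero] at h1 h2
      have hb : b = b' := mul_right_cancel₀ hxx h1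
      have ha : a = a' := mul_right_cancel₀ hxx' h2
      subst ha hb
      have hc : c = c' := smul_left_injective F hu (add_left_cancel h)
      rw [hc])
    (by rw [card_perp B hdim (hnd u hu)]; simp [pow_succ, mul_assoc])
    v (by simpa using hv)
  obtain ⟨⟨a, b, c⟩, _, h⟩ := key
  exact ⟨a, b, c, h⟩

theorem card_plane_le (hdim : Module.finrank F V = 4) (halt : ∀ x, B x x = 0)
    (hnd : ∀ u, u ≠ 0 → B u ≠ 0) (O : Finset V) (hO : ∀ x ∈ O, ∀ y ∈ O, x ≠ y → B x y ≠ 0)
    {u : V} (hu : u ≠ 0) : #(O.filter fun v => B u v = 0) ≤ Fintype.card F + 1 := by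
  set K := O.filter fun v => B u v = 0 with hK
  by_cases h1 : #K ≤ 1
  · omega
  obtain ⟨x, hx, x0, hx0, hne⟩ := Finset.one_lt_card.mp (not_le.mp h1)
  have hx' := Finset.mem_filter.mp hx
  have hx0' := Finset.mem_filter.mp hx0
  have hxx := hO x hx'.1 x0 hx0'.1 hne
  have hxu : B x u = 0 := by rw [skew B halt, hx'.2, neg_zero]
  have hx0u : B x0 u = 0 := by rw [skew B halt, hx0'.2, neg_zero]
  choose! a b c habc using coords B hdim halt hnd hu hx'.2 hx0'.2 hxx
  have hb : ∀ y ∈ K.erase x, b y ≠ 0 := by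
    intro y hy hb0
    have hy' := Finset.mem_filter.mp (Finset.mem_of_mem_erase hy)
    apply hO x hx'.1 y hy'.1 (Finset.ne_of_mem_erase hy).symm
    rw [habc y hy'.2]
    simp [halt, hxu, hb0]
  have h2 : #(K.erase x) ≤ #(univ : Finset F) := by
    refine Finset.card_le_card_of_injOn (fun y => a y / b y) (by intro y _; simp) ?_
    intro y hy y' hy' h
    by_contra hyy
    have hy1 := Finset.mem_filter.mp (Finset.mem_of_mem_erase hy)
    have hy2 := Finset.mem_filter.mp (Finset.mem_of_mem_erase hy')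
    apply hO y hy1.1 y' hy2.1 hyy
    have h' : a y * b y' = a y' * b y := by
      have := (div_eq_div_iff (hb y hy) (hb y' hy')).mp h
      exact this
    rw [habc y hy1.2, habc y' hy2.2]
    simp only [map_add, map_smul, LinearMap.add_apply, LinearMap.smul_apply, halt, hxu, hx0u,
      hx'.2, hx0'.2, smul_eq_mul, skew B halt x x0]
    linear_combination (B x x0) * h'
  rw [Finset.card_erase_of_mem hx, Finset.card_univ] at h2
  omega

omit [Fintype F] [Fintype V] [DecidableEq V] in
theorem fiber_subset (S O : Finset V) (hS : S ⊆ O) (x1 x2 : V) (h2 : ∀ y ∈ S, B x2 y ≠ 0)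
    (r : F) : (S.filter fun y => B x1 y / B x2 y = r) ⊆
      O.filter fun v => B (x1 - r • x2) v = 0 := by
  intro y hy
  obtain ⟨hy1, hy2⟩ := Finset.mem_filter.mp hy
  refine Finset.mem_filter.mpr ⟨hS hy1, ?_⟩
  have := h2 y hy1
  simp only [map_sub, map_smul, LinearMap.sub_apply, LinearMap.smul_apply, smul_eq_mul]
  rw [← hy2]
  field_simp
  ring

omit [Fintype F] [DecidableEq F] [Fintype V] [DecidableEq V] in
theorem sub_smul_ne_zero (halt : ∀ x, B x x = 0) {x1 x2 : V} (h : B x1 x2 ≠ 0) (r : F) :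
    x1 - r • x2 ≠ 0 := by
  intro h0
  apply h
  rw [sub_eq_zero.mp h0]
  simp [halt]

theorem no_three (hdim : Module.finrank F V = 4) (halt : ∀ x, B x x = 0)
    (hnd : ∀ u, u ≠ 0 → B u ≠ 0) (O : Finset V) (hO : ∀ x ∈ O, ∀ y ∈ O, x ≠ y → B x y ≠ 0)
    (hcard : Fintype.card F ^ 2 ≤ #O) {x1 x2 x3 : V} (h1 : x1 ∈ O) (h2 : x2 ∈ O) (h3 : x3 ∈ O)
    (h12 : x1 ≠ x2) (h31 : x3 ≠ x1) (h32 : x3 ≠ x2) (α β : F) (h : x3 = α • x1 + β • x2) :
    False := by
  have hα : α ≠ 0 := by
    intro h0
    apply hO x3 h3 x2 h2 h32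
    rw [h]; simp [h0, halt]
  have hβ : β ≠ 0 := by
    intro h0
    apply hO x3 h3 x1 h1 h31
    rw [h]; simp [h0, halt]
  set S := ((O.erase x1).erase x2).erase x3 with hS
  have hmem : ∀ y ∈ S, y ∈ O ∧ y ≠ x1 ∧ y ≠ x2 ∧ y ≠ x3 := by
    intro y hy
    simp only [hS, Finset.mem_erase] at hy
    tauto
  have hSO : S ⊆ O := fun y hy => (hmem y hy).1
  have hS2 : ∀ y ∈ S, B x2 y ≠ 0 := fun y hy => hO x2 h2 y (hmem y hy).1 (hmem y hy).2.2.1.symm
  have hle := Finset.card_le_mul_card_image_of_maps_to (s := S)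
    (t := ((univ : Finset F).erase 0).erase (-β / α)) (f := fun y => B x1 y / B x2 y)
    (by
      intro y hy
      obtain ⟨a1, a2, a3, a4⟩ := hmem y hy
      have b1 := hO x1 h1 y a1 a2.symm
      have b2 := hO x2 h2 y a1 a3.symm
      have b3 := hO x3 h3 y a1 a4.symm
      simp only [Finset.mem_erase, Finset.mem_univ, and_true]
      refine ⟨fun h0 => b3 ?_, div_ne_zero b1 b2⟩
      rw [div_eq_div_iff b2 hα] at h0
      rw [h]
      simp only [map_add, map_smul, LinearMap.add_apply, LinearMap.smul_apply, smul_eq_mul]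
      linear_combination h0)
    (Fintype.card F + 1)
    (fun r _ => (Finset.card_le_card (fiber_subset B S O hSO x1 x2 hS2 r)).trans
      (card_plane_le B hdim halt hnd O hO (sub_smul_ne_zero B halt (hO x1 h1 x2 h2 h12) r)))
  have hne : -β / α ≠ 0 := div_ne_zero (neg_ne_zero.mpr hβ) hα
  rw [Finset.card_erase_of_mem (a := -β / α) (by simp [hβ, hα]),
    Finset.card_erase_of_mem (Finset.mem_univ (0 : F)), Finset.card_univ] at hle
  have hScard : #O ≤ #S + 3 := by
    have a1 := Finset.pred_card_le_card_erase (s := O) (a := x1)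
    have a2 := Finset.pred_card_le_card_erase (s := O.erase x1) (a := x2)
    have a3 := Finset.pred_card_le_card_erase (s := (O.erase x1).erase x2) (a := x3)
    rw [← hS] at a3
    omega
  have hq : 2 ≤ Fintype.card F := Fintype.one_lt_card
  obtain ⟨m, hm⟩ : ∃ m, Fintype.card F = m + 2 := ⟨Fintype.card F - 2, by omega⟩
  rw [hm] at hle hcard
  simp only [show m + 2 - 1 - 1 = m by omega] at hle
  nlinarith

theorem exists_big_plane (halt : ∀ x, B x x = 0)
    (O : Finset V) (hO : ∀ x ∈ O, ∀ y ∈ O, x ≠ y → B x y ≠ 0)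
    (hcard : Fintype.card F ^ 2 ≤ #O) (hq : 3 ≤ Fintype.card F) :
    ∃ u : V, u ≠ 0 ∧ Fintype.card F + 1 ≤ #(O.filter fun v => B u v = 0) := by
  by_contra! hcon
  have h1 : 1 < #O := by nlinarith
  obtain ⟨x1, h1, x2, h2, h12⟩ := Finset.one_lt_card.mp h1
  set S := (O.erase x1).erase x2 with hS
  have hmem : ∀ y ∈ S, y ∈ O ∧ y ≠ x1 ∧ y ≠ x2 := by
    intro y hy
    simp only [hS, Finset.mem_erase] at hy
    tauto
  have hSO : S ⊆ O := fun y hy => (hmem y hy).1
  have hS2 : ∀ y ∈ S, B x2 y ≠ 0 := fun y hy => hO x2 h2 y (hmem y hy).1 (hmem y hy).2.2.symm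
  have hle := Finset.card_le_mul_card_image_of_maps_to (s := S)
    (t := (univ : Finset F).erase 0) (f := fun y => B x1 y / B x2 y)
    (by
      intro y hy
      obtain ⟨a1, a2, a3⟩ := hmem y hy
      simp only [Finset.mem_erase, Finset.mem_univ, and_true]
      exact div_ne_zero (hO x1 h1 y a1 a2.symm) (hO x2 h2 y a1 a3.symm))
    (Fintype.card F)
    (fun r _ => (Finset.card_le_card (fiber_subset B S O hSO x1 x2 hS2 r)).trans
      (Nat.lt_succ_iff.mp (hcon _ (sub_smul_ne_zero B halt (hO x1 h1 x2 h2 h12) r))))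
  rw [Finset.card_erase_of_mem (Finset.mem_univ (0 : F)), Finset.card_univ] at hle
  have hScard : #O ≤ #S + 2 := by
    have a1 := Finset.pred_card_le_card_erase (s := O) (a := x1)
    have a2 := Finset.pred_card_le_card_erase (s := O.erase x1) (a := x2)
    rw [← hS] at a2
    omega
  obtain ⟨m, hm⟩ : ∃ m, Fintype.card F = m + 3 := ⟨Fintype.card F - 3, by omega⟩
  rw [hm] at hle hcard
  simp only [show m + 3 - 1 = m + 2 by omega] at hle
  nlinarith

theorem card_lt_sq (hdim : Module.finrank F V = 4) (halt : ∀ x, B x x = 0)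
    (hnd : ∀ u, u ≠ 0 → B u ≠ 0) (O : Finset V) (hO : ∀ x ∈ O, ∀ y ∈ O, x ≠ y → B x y ≠ 0)
    (hodd : Odd (Fintype.card F)) : #O < Fintype.card F ^ 2 := by
  by_contra! hcard
  have hq2 : 2 ≤ Fintype.card F := Fintype.one_lt_card
  have hq : 3 ≤ Fintype.card F := by
    obtain ⟨k, hk⟩ := hodd
    omega
  obtain ⟨u, hu, hbig⟩ := exists_big_plane B halt O hO hcard hq
  have hsmall := card_plane_le B hdim halt hnd O hO hu
  set K := O.filter fun v => B u v = 0 with hK
  obtain ⟨x0, hx0⟩ : K.Nonempty := Finset.card_pos.mp (by omega)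
  have hx0' := Finset.mem_filter.mp hx0
  have hx0u : B x0 u = 0 := by rw [skew B halt, hx0'.2, neg_zero]
  set S := K.erase x0 with hS
  have hScard : #S = Fintype.card F := by
    rw [hS, Finset.card_erase_of_mem hx0]; omega
  have hmem : ∀ y ∈ S, y ∈ O ∧ B u y = 0 ∧ y ≠ x0 := by
    intro y hy
    have := Finset.mem_filter.mp (Finset.mem_of_mem_erase hy)
    exact ⟨this.1, this.2, Finset.ne_of_mem_erase hy⟩
  -- existence of a partner
  have hex : ∀ x ∈ S, ∃ y ∈ S, y ≠ x ∧ ∃ a b : F, x0 + u = a • x + b • y := by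
    intro x hx
    obtain ⟨m1, m2, m3⟩ := hmem x hx
    have hxK : x ∈ K := Finset.mem_of_mem_erase hx
    have hxx := hO x m1 x0 hx0'.1 m3
    have hxu : B x u = 0 := by rw [skew B halt, m2, neg_zero]
    choose! a b c habc using coords B hdim halt hnd hu m2 hx0'.2 hxx
    have hb : ∀ y ∈ K.erase x, b y ≠ 0 := by
      intro y hy hb0
      have hy' := Finset.mem_filter.mp (Finset.mem_of_mem_erase hy)
      apply hO x m1 y hy'.1 (Finset.ne_of_mem_erase hy).symm
      rw [habc y hy'.2]
      simp [halt, hxu, hb0]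
    have key := Finset.surj_on_of_inj_on_of_card_le (s := K.erase x) (t := (univ : Finset F))
      (fun y _ => c y / b y) (by intro y _; simp)
      (by
        intro y y' hy hy' h
        by_contra hyy
        have hy1 := Finset.mem_filter.mp (Finset.mem_of_mem_erase hy)
        have hy2 := Finset.mem_filter.mp (Finset.mem_of_mem_erase hy')
        have b1 := hb y hy
        have b2 := hb y' hy'
        have h' : c y * b y' = c y' * b y := (div_eq_div_iff b1 b2).mp h
        refine no_three B hdim halt hnd O hO hcard m1 hy2.1 hy1.1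
          (Finset.ne_of_mem_erase hy').symm (Finset.ne_of_mem_erase hy) hyy
          (a y - b y / b y' * a y') (b y / b y') ?_
        have e1 := habc y hy1.2
        have e2 := habc y' hy2.2
        have e3 : c y = b y / b y' * c y' := by field_simp; linear_combination h'
        have e4 : b y = b y / b y' * b y' := by field_simp
        generalize b y / b y' = t at e3 e4 ⊢
        linear_combination (norm := module) e1 - t • e2 + e4 • x0 + e3 • u)
      (by rw [Finset.card_erase_of_mem hxK, Finset.card_univ]; omega)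
      1 (Finset.mem_univ _)
    obtain ⟨y, hy, hy1⟩ := key
    have b1 := hb y hy
    have hyK := Finset.mem_filter.mp (Finset.mem_of_mem_erase hy)
    have hcb : c y = b y := by
      field_simp at hy1
      exact hy1.symm
    have e1 := habc y hyK.2
    refine ⟨y, Finset.mem_erase.mpr ⟨?_, Finset.mem_of_mem_erase hy⟩, Finset.ne_of_mem_erase hy,
      -(a y / b y), (b y)⁻¹, ?_⟩
    · rintro rfl
      have h1 := congrArg (B x) e1
      have h2 := congrArg (B y) e1
      simp only [map_add, map_smul, halt, hxu, hx0u, smul_eq_mul, mul_zero, zero_add,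
        add_zero] at h1 h2
      have hb1 : b y = 1 := by
        have := mul_right_cancel₀ hxx (h1.symm.trans (one_mul _).symm)
        exact this
      have ha0 : a y = 0 := by
        rcases mul_eq_zero.mp h2.symm with h | h
        · exact h
        · exact absurd h (by rw [skew B halt]; exact neg_ne_zero.mpr hxx)
      rw [hcb, hb1, ha0] at e1
      simp only [zero_smul, one_smul, zero_add] at e1
      exact hu (left_eq_add.mp e1)
    · have e5 : (b y)⁻¹ • y = (b y)⁻¹ • (a y • x + b y • x0 + b y • u) := by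
        rw [hcb] at e1
        exact congrArg _ e1
      rw [e5]
      match_scalars <;> field_simp
      ring
  -- uniqueness of the partner
  have huniq : ∀ x ∈ S, ∀ y ∈ S, ∀ y' ∈ S, y ≠ x → y' ≠ x →
      (∃ a b : F, x0 + u = a • x + b • y) → (∃ a b : F, x0 + u = a • x + b • y') → y = y' := by
    rintro x hx y hy y' hy' h1 h2 ⟨a, b, e1⟩ ⟨a', b', e2⟩
    by_contra hyy
    obtain ⟨m1, m2, m3⟩ := hmem x hx
    have hb : b ≠ 0 := by
      rintro rfl
      have h3 := congrArg (B x) e1
      have hxu : B x u = 0 := by rw [skew B halt, m2, neg_zero]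
      simp only [map_add, map_smul, halt, hxu, smul_eq_mul, mul_zero, zero_mul, add_zero] at h3
      exact hO x m1 x0 hx0'.1 m3 h3
    refine no_three B hdim halt hnd O hO hcard m1 (hmem y' hy').1 (hmem y hy).1 h2.symm h1 hyy
      ((a' - a) / b) (b' / b) ?_
    have e3 : b • y = (a' - a) • x + b' • y' := by
      rw [sub_smul, ← sub_eq_zero]
      have := e1.symm.trans e2
      rw [← sub_eq_zero] at this
      rw [← this]; abel
    have e4 : y = b⁻¹ • (b • y) := by rw [smul_smul, inv_mul_cancel₀ hb, one_smul]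
    rw [e4, e3]
    match_scalars <;> field_simp
  choose g hg using hex
  have hsum : ∑ _x ∈ S, (1 : ZMod 2) = 0 := by
    refine Finset.sum_involution g (fun _ _ => by decide) (fun a ha _ => (hg a ha).2.1)
      (fun a ha => (hg a ha).1) ?_
    intro a ha
    obtain ⟨g1, g2, s, t, g3⟩ := hg a ha
    obtain ⟨k1, k2, k3⟩ := hg (g a ha) g1
    exact huniq (g a ha) g1 _ k1 a ha k2 g2.symm k3 ⟨t, s, by rw [g3, add_comm]⟩
  rw [Finset.sum_const, hScard, nsmul_eq_mul, mul_one, ZMod.natCast_eq_zero_iff_even] at hsum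
  exact (Nat.not_even_iff_odd.mpr hodd) hsum

end Ovoid

end Pool.Agent.Lib.MP_671173_al
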