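import Pool.Agent.Lib.MP_671173_al.Defs
import Pool.Agent.Lib.MP_671173_al.Ovoid

set_option autoImplicit false

namespace Pool.Agent.Lib.MP_671173_al

open Finset

variable {F : Type} [Field F]

/-- The unitriangular matrix with the given entries above the diagonal. -/
def mkU (a b c d e f : F) : Matrix (Fin 4) (Fin 4) F :=
  !![1, a, d, f; 0, 1, b, e; 0, 0, 1, c; 0, 0, 0, 1]

theorem isUU4_mkU (a b c d e f : F) : IsUU4 (mkU a b c d e f) := by
  constructor
  · intro i j h
    fin_cases i <;> fin_cases j <;> simp [mkU] at h ⊢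
  · intro i
    fin_cases i <;> simp [mkU]

theorem eq_mkU {g : Matrix (Fin 4) (Fin 4) F} (h : IsUU4 g) :
    g = mkU (g 0 1) (g 1 2) (g 2 3) (g 0 2) (g 1 3) (g 0 3) := by
  obtain ⟨h1, h2⟩ := h
  ext i j
  fin_cases i <;> fin_cases j <;> simp [mkU, h2] <;> exact h1 _ _ (by decide)

theorem mkU_comm (a b c d e f a' b' c' d' e' f' : F) :
    mkU a b c d e f * mkU a' b' c' d' e' f' = mkU a' b' c' d' e' f' * mkU a b c d e f ↔
      a * b' = a' * b ∧ b * c' = b' * c ∧ a * e' + d * c' = a' * e + d' * c := by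
  constructor
  · intro h
    have h1 := congrFun (congrFun h 0) 2
    have h2 := congrFun (congrFun h 1) 3
    have h3 := congrFun (congrFun h 0) 3
    simp [mkU, Matrix.mul_apply, Fin.sum_univ_four] at h1 h2 h3
    exact ⟨by linear_combination h1, by linear_combination h2, by linear_combination h3⟩
  · rintro ⟨h1, h2, h3⟩
    ext i j
    fin_cases i <;> fin_cases j <;> simp [mkU, Matrix.mul_apply, Fin.sum_univ_four]
    · ring
    · linear_combination h1
    · linear_combination h3
    · ring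
    · linear_combination h2
    · ring

theorem comm_iff {x y : Matrix (Fin 4) (Fin 4) F} (hx : IsUU4 x) (hy : IsUU4 y) :
    x * y = y * x ↔ x 0 1 * y 1 2 = y 0 1 * x 1 2 ∧ x 1 2 * y 2 3 = y 1 2 * x 2 3 ∧
      x 0 1 * y 1 3 + x 0 2 * y 2 3 = y 0 1 * x 1 3 + y 0 2 * x 2 3 := by
  rw [← mkU_comm _ _ _ _ _ (x 0 3) _ _ _ _ _ (y 0 3), ← eq_mkU hx, ← eq_mkU hy]

/-- The symplectic form on `F^4`. -/
def symp : (F × F × F × F) →ₗ[F] (F × F × F × F) →ₗ[F] F :=
  LinearMap.mk₂ F (fun x y => x.1 * y.2.2.2 - x.2.2.2 * y.1 + x.2.2.1 * y.2.1 - x.2.1 * y.2.2.1)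
    (by intro x y z; simp only [Prod.fst_add, Prod.snd_add]; ring)
    (by intro c x y; simp only [Prod.smul_fst, Prod.smul_snd, smul_eq_mul]; ring)
    (by intro x y z; simp only [Prod.fst_add, Prod.snd_add]; ring)
    (by intro c x y; simp only [Prod.smul_fst, Prod.smul_snd, smul_eq_mul]; ring)

theorem symp_apply (x y : F × F × F × F) :
    symp x y = x.1 * y.2.2.2 - x.2.2.2 * y.1 + x.2.2.1 * y.2.1 - x.2.1 * y.2.2.1 := rfl

theorem symp_nd (u : F × F × F × F) (hu : u ≠ 0) : symp u ≠ 0 := by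
  intro h
  apply hu
  obtain ⟨a, c, d, e⟩ := u
  have h1 := LinearMap.congr_fun h (1, 0, 0, 0)
  have h2 := LinearMap.congr_fun h (0, 1, 0, 0)
  have h3 := LinearMap.congr_fun h (0, 0, 1, 0)
  have h4 := LinearMap.congr_fun h (0, 0, 0, 1)
  simp [symp_apply] at h1 h2 h3 h4
  simp [h1, h2, h3, h4]

variable [Fintype F] [DecidableEq F]

/-- The index set for the elements with nonzero middle entry. -/
def idx (F : Type) [Field F] [Fintype F] [DecidableEq F] : Finset (F × F × F) :=
  univ \ (univ.erase (0 : F)).image fun t => ((0 : F), (0 : F), t)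

theorem mem_idx (a c t : F) : (a, c, t) ∈ idx F ↔ (a = 0 → c = 0 → t = 0) := by
  simp only [idx, Finset.mem_sdiff, Finset.mem_univ, true_and, Finset.mem_image,
    Finset.mem_erase, and_true, Prod.mk.injEq, not_exists, not_and]
  constructor
  · intro h ha hc
    by_contra ht
    exact h t ht ha.symm hc.symm rfl
  · intro h x hx ha hc hxt
    exact hx (hxt.trans (h ha.symm hc.symm))

theorem card_idx : #(idx F) + Fintype.card F = Fintype.card F ^ 3 + 1 := by
  have h1 : #((univ.erase (0 : F)).image fun t => ((0 : F), (0 : F), t)) = Fintype.card F - 1 := by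
    rw [Finset.card_image_of_injective _ (fun s t h => by simpa using h),
      Finset.card_erase_of_mem (Finset.mem_univ _), Finset.card_univ]
  have h2 := Finset.card_sdiff_add_card_eq_card
    (Finset.subset_univ ((univ.erase (0 : F)).image fun t => ((0 : F), (0 : F), t)))
  have h3 : #(univ : Finset (F × F × F)) = Fintype.card F ^ 3 := by simp [pow_succ, mul_assoc]
  have h4 : 1 ≤ Fintype.card F := Fintype.card_pos
  rw [h1, h3] at h2
  rw [idx]
  omega

theorem upper (hodd : Odd (Fintype.card F)) (X : Finset (Matrix (Fin 4) (Fin 4) F))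
    (hX : ∀ g ∈ X, IsUU4 g) (hnc : ∀ x ∈ X, ∀ y ∈ X, x ≠ y → x * y ≠ y * x) :
    #X + Fintype.card F ≤ Fintype.card F ^ 3 + Fintype.card F ^ 2 := by
  have hsplit := Finset.card_filter_add_card_filter_not (s := X) (fun g => g 1 2 = 0)
  have h1 : #(X.filter fun g => ¬ g 1 2 = 0) ≤ #(idx F) := by
    refine Finset.card_le_card_of_injOn (fun g => (g 0 1 / g 1 2, g 2 3 / g 1 2,
      (g 0 1 * g 1 3 - g 2 3 * g 0 2) / (g 1 2) ^ 2)) ?_ ?_
    · intro g hg
      have hb := (Finset.mem_filter.mp hg).2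
      simp only [Finset.mem_coe, mem_idx]
      intro ha hc
      rw [div_eq_zero_iff] at ha hc
      simp [ha.resolve_right hb, hc.resolve_right hb]
    · intro x hx y hy h
      obtain ⟨hx1, hx2⟩ := Finset.mem_filter.mp hx
      obtain ⟨hy1, hy2⟩ := Finset.mem_filter.mp hy
      by_contra hne
      apply hnc x hx1 y hy1 hne
      simp only [Prod.mk.injEq] at h
      obtain ⟨e1, e2, e3⟩ := h
      rw [div_eq_div_iff hx2 hy2] at e1 e2
      rw [div_eq_div_iff (pow_ne_zero 2 hx2) (pow_ne_zero 2 hy2)] at e3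
      rw [comm_iff (hX x hx1) (hX y hy1)]
      refine ⟨e1, by linear_combination -e2, ?_⟩
      apply mul_left_cancel₀ (mul_ne_zero hx2 hy2)
      linear_combination (x 1 2 * y 1 3 + y 1 2 * x 1 3) * e1
        - (x 1 2 * y 0 2 + y 1 2 * x 0 2) * e2 - e3
  have h2 : #(X.filter fun g => g 1 2 = 0) < Fintype.card F ^ 2 := by
    have hB : ∀ x ∈ X.filter (fun g => g 1 2 = 0), ∀ y ∈ X.filter (fun g => g 1 2 = 0), x ≠ y →
        symp (x 0 1, x 2 3, x 0 2, x 1 3) (y 0 1, y 2 3, y 0 2, y 1 3) ≠ 0 := by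
      intro x hx y hy hne h0
      obtain ⟨hx1, hx2⟩ := Finset.mem_filter.mp hx
      obtain ⟨hy1, hy2⟩ := Finset.mem_filter.mp hy
      apply hnc x hx1 y hy1 hne
      rw [comm_iff (hX x hx1) (hX y hy1)]
      rw [symp_apply] at h0
      refine ⟨by simp [hx2, hy2], by simp [hx2, hy2], by linear_combination h0⟩
    have halt : ∀ x : F × F × F × F, symp x x = 0 := by
      intro x; rw [symp_apply]; ring
    rw [← Finset.card_image_of_injOn (f := fun x : Matrix (Fin 4) (Fin 4) F =>
      (x 0 1, x 2 3, x 0 2, x 1 3))]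
    · refine card_lt_sq symp (by simp) halt symp_nd _ ?_ hodd
      intro v hv w hw hvw
      obtain ⟨x, hx, rfl⟩ := Finset.mem_image.mp hv
      obtain ⟨y, hy, rfl⟩ := Finset.mem_image.mp hw
      exact hB x hx y hy (fun h => hvw (by rw [h]))
    · intro x hx y hy h
      by_contra hne
      apply hB x hx y hy hne
      simp only at h
      rw [h, halt]
  have h3 := card_idx (F := F)
  omega

theorem exists_irred (h2 : (2 : F) = 0) : ∃ δ : F, ∀ t : F, t ^ 2 + t + δ ≠ 0 := by
  by_contra! h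
  have hs : Function.Surjective fun t : F => t ^ 2 + t := by
    intro δ
    obtain ⟨t, ht⟩ := h δ
    exact ⟨t, by linear_combination ht - δ * h2⟩
  have hi := Finite.injective_iff_surjective.mpr hs
  exact zero_ne_one (hi (a₁ := 0) (a₂ := 1) (by simp only; linear_combination -h2))

theorem lower (h2 : (2 : F) = 0) : ∃ X : Finset (Matrix (Fin 4) (Fin 4) F),
    (∀ g ∈ X, IsUU4 g) ∧ (∀ x ∈ X, ∀ y ∈ X, x ≠ y → x * y ≠ y * x) ∧
      #X + Fintype.card F = Fintype.card F ^ 3 + Fintype.card F ^ 2 + 1 := by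
  obtain ⟨δ, hδ⟩ := exists_irred h2
  let φ : (F × F × F) ⊕ (F × F) → Matrix (Fin 4) (Fin 4) F := Sum.elim
    (fun p => mkU p.1 1 p.2.1 (if p.1 = 0 then p.2.2 else 0) (if p.1 = 0 then 0 else p.2.2) 0)
    (fun p => mkU 1 0 p.1 p.2 (p.2 ^ 2 + p.2 * p.1 + δ * p.1 ^ 2) 0)
  have hφ : ∀ i ∈ (idx F).disjSum (univ : Finset (F × F)), ∀ j ∈ (idx F).disjSum univ, i ≠ j →
      φ i * φ j ≠ φ j * φ i := by
    rintro (⟨a, c, t⟩ | ⟨c, d⟩) hi (⟨a', c', t'⟩ | ⟨c', d'⟩) hj hne h <;>
      simp only [φ, Sum.elim_inl, Sum.elim_inr, mkU_comm] at h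
    · simp only [Finset.inl_mem_disjSum, mem_idx] at hi hj
      obtain ⟨e1, e2, e3⟩ := h
      rw [mul_one, mul_one] at e1
      rw [one_mul, one_mul] at e2
      subst e1 e2
      apply hne
      have : t = t' := by
        by_cases ha : a = 0
        · by_cases hc : c' = 0
          · rw [hi ha hc, hj ha hc]
          · simp only [ha, if_true, zero_mul, zero_add] at e3
            exact mul_right_cancel₀ hc e3
        · simp only [ha, if_false, zero_mul, add_zero] at e3
          exact (mul_left_cancel₀ ha e3).symm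
      rw [this]
    · simp at h
    · simp at h
    · obtain ⟨-, -, e3⟩ := h
      have e4 : (d + d') ^ 2 + (d + d') * (c + c') + δ * (c + c') ^ 2 = 0 := by
        linear_combination e3 + (d * d' + d ^ 2 + d * c + δ * c ^ 2 + d' * c + δ * c * c') * h2
      apply hne
      by_cases hc : c + c' = 0
      · have hd : d + d' = 0 := by
          rw [hc] at e4
          simpa using e4
        have hc' : c = c' := by linear_combination hc - c' * h2
        have hd' : d = d' := by linear_combination hd - d' * h2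
        rw [hc', hd']
      · exfalso
        apply hδ ((d + d') / (c + c'))
        field_simp
        linear_combination e4
  refine ⟨((idx F).disjSum (univ : Finset (F × F))).image φ, ?_, ?_, ?_⟩
  · intro g hg
    obtain ⟨i, _, rfl⟩ := Finset.mem_image.mp hg
    rcases i with p | p <;> exact isUU4_mkU _ _ _ _ _ _
  · intro x hx y hy hne
    obtain ⟨i, hi, rfl⟩ := Finset.mem_image.mp hx
    obtain ⟨j, hj, rfl⟩ := Finset.mem_image.mp hy
    exact hφ i hi j hj (fun h => hne (by rw [h]))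
  · rw [Finset.card_image_of_injOn, Finset.card_disjSum]
    · have := card_idx (F := F)
      have h3 : #(univ : Finset (F × F)) = Fintype.card F ^ 2 := by simp [pow_two]
      omega
    · intro i hi j hj h
      by_contra hne
      exact hφ i hi j hj hne (by rw [h])

omit [DecidableEq F] in
theorem omega_upper (hodd : Odd (Fintype.card F)) :
    omegaUU4 F + Fintype.card F ≤ Fintype.card F ^ 3 + Fintype.card F ^ 2 := by
  classical
  have hne : {n : ℕ | ∃ X : Finset (Matrix (Fin 4) (Fin 4) F), (∀ g ∈ X, IsUU4 g) ∧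
      (∀ x ∈ X, ∀ y ∈ X, x ≠ y → x * y ≠ y * x) ∧ X.card = n}.Nonempty := ⟨0, ∅, by simp⟩
  have hbdd : BddAbove {n : ℕ | ∃ X : Finset (Matrix (Fin 4) (Fin 4) F), (∀ g ∈ X, IsUU4 g) ∧
      (∀ x ∈ X, ∀ y ∈ X, x ≠ y → x * y ≠ y * x) ∧ X.card = n} :=
    ⟨Fintype.card (Matrix (Fin 4) (Fin 4) F), by rintro n ⟨X, _, _, rfl⟩; exact X.card_le_univ⟩
  obtain ⟨X, h1, h2, h3⟩ := Nat.sSup_mem hne hbdd
  rw [omegaUU4, ← h3]
  exact upper hodd X h1 h2

omit [DecidableEq F] in
theorem omega_lower (h2 : (2 : F) = 0) :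
    Fintype.card F ^ 3 + Fintype.card F ^ 2 + 1 ≤ omegaUU4 F + Fintype.card F := by
  classical
  have hbdd : BddAbove {n : ℕ | ∃ X : Finset (Matrix (Fin 4) (Fin 4) F), (∀ g ∈ X, IsUU4 g) ∧
      (∀ x ∈ X, ∀ y ∈ X, x ≠ y → x * y ≠ y * x) ∧ X.card = n} :=
    ⟨Fintype.card (Matrix (Fin 4) (Fin 4) F), by rintro n ⟨X, _, _, rfl⟩; exact X.card_le_univ⟩
  obtain ⟨X, h1, h3, h4⟩ := lower h2
  have : #X ≤ omegaUU4 F := le_csSup hbdd ⟨X, h1, h3, rfl⟩
  omega

theorem eventually_sign (R : Polynomial ℚ) :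
    (∀ᶠ x : ℚ in Filter.atTop, 0 ≤ R.eval x) ∨ (∀ᶠ x : ℚ in Filter.atTop, R.eval x < 0) := by
  by_cases hdeg : 0 < R.degree
  · rcases le_total 0 R.leadingCoeff with h | h
    · exact Or.inl ((R.tendsto_atTop_of_leadingCoeff_nonneg hdeg h).eventually_ge_atTop 0)
    · exact Or.inr ((R.tendsto_atBot_of_leadingCoeff_nonpos hdeg h).eventually_lt_atBot 0)
  · rw [Polynomial.eq_C_of_degree_le_zero (not_lt.mp hdeg)]
    simp only [Polynomial.eval_C]
    rcases le_or_gt 0 (R.coeff 0) with h | h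
    · exact Or.inl (Filter.Eventually.of_forall fun _ => h)
    · exact Or.inr (Filter.Eventually.of_forall fun _ => h)

theorem main (P : Polynomial ℚ) (q₀ : ℕ) :
    ∃ (K : Type) (_ : Field K) (_ : Fintype K), q₀ ≤ Fintype.card K ∧
      (omegaUU4 K : ℚ) ≠ P.eval (Fintype.card K : ℚ) := by
  by_contra! h
  rcases eventually_sign (P - (Polynomial.X ^ 3 + Polynomial.X ^ 2 + 1 - Polynomial.X)) with
    hs | hs
  · obtain ⟨x, hx⟩ := Filter.eventually_atTop.mp hs
    obtain ⟨n, hn⟩ := exists_nat_ge x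
    obtain ⟨p, hp1, hp⟩ := Nat.exists_infinite_primes (max (max n q₀) 3)
    haveI := Fact.mk hp
    have hp2 : p ≠ 2 := by
      have := le_max_right (max n q₀) 3
      omega
    have h1 := h (ZMod p) inferInstance inferInstance (by
      rw [ZMod.card]; exact le_trans (le_trans (le_max_right _ _) (le_max_left _ _)) hp1)
    have h2 := omega_upper (F := ZMod p) (by rw [ZMod.card]; exact hp.odd_of_ne_two hp2)
    rw [ZMod.card] at h1 h2
    have h3 := hx p (hn.trans (by
      exact_mod_cast le_trans (le_trans (le_max_left _ _) (le_max_left _ _)) hp1))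
    simp only [Polynomial.eval_sub, Polynomial.eval_add, Polynomial.eval_pow, Polynomial.eval_X,
      Polynomial.eval_one, ← h1] at h3
    have h4 : (omegaUU4 (ZMod p) : ℚ) + p ≤ (p : ℚ) ^ 3 + (p : ℚ) ^ 2 := by exact_mod_cast h2
    linarith
  · obtain ⟨x, hx⟩ := Filter.eventually_atTop.mp hs
    obtain ⟨n, hn⟩ := exists_nat_ge x
    set k := max n q₀ + 1 with hk
    haveI : Fintype (GaloisField 2 k) := Fintype.ofFinite _
    have hcard : Fintype.card (GaloisField 2 k) = 2 ^ k := by
      rw [← Nat.card_eq_fintype_card, GaloisField.card 2 k (by omega)]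
    have hlt : k < 2 ^ k := Nat.lt_two_pow_self
    have h1 := h (GaloisField 2 k) inferInstance inferInstance (by
      rw [hcard]; have := le_max_right n q₀; omega)
    have h2 := omega_lower (F := GaloisField 2 k) (CharP.cast_eq_zero _ 2)
    have h3 := hx (Fintype.card (GaloisField 2 k) : ℚ) (hn.trans (by
      rw [hcard]; have := le_max_left n q₀
      exact_mod_cast (by omega : n ≤ 2 ^ k)))
    simp only [Polynomial.eval_sub, Polynomial.eval_add, Polynomial.eval_pow, Polynomial.eval_X,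
      Polynomial.eval_one, ← h1] at h3
    have h4 : (Fintype.card (GaloisField 2 k) : ℚ) ^ 3 + (Fintype.card (GaloisField 2 k) : ℚ) ^ 2
        + 1 ≤ omegaUU4 (GaloisField 2 k) + Fintype.card (GaloisField 2 k) := by exact_mod_cast h2
    linarith

end Pool.Agent.Lib.MP_671173_al
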